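import Pool.Agent.Lib.MP_2c1b2b_gt.Interfaces

/-!
# MP_2c1b2b_gt, module Z (helper33): from the sparsification of zonotope norms to zonoids

`zonoid : SparseStatement → ZonoidStatement`.
-/

open scoped RealInnerProductSpace Pointwise BigOperators

namespace Pool.Agent.Lib.MP_2c1b2b_gt.H33

open Pool.Agent.Lib.MP_2c1b2b_gt

/-- The zonotope of `v`. -/
noncomputable def Zt {n m : ℕ} (v : Fin m → E n) : Set (E n) := ∑ i, segment ℝ (-v i) (v i)

theorem mem_segment_neg {n : ℕ} (v z : E n) :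
    z ∈ segment ℝ (-v) v ↔ ∃ t : ℝ, |t| ≤ 1 ∧ z = t • v := by
  constructor
  · rintro ⟨a, b, ha, hb, hab, rfl⟩
    refine ⟨b - a, ?_, ?_⟩
    · rw [abs_le]; constructor <;> linarith
    · rw [sub_smul, smul_neg]; abel
  · rintro ⟨t, ht, rfl⟩
    rw [abs_le] at ht
    refine ⟨(1 - t) / 2, (1 + t) / 2, by linarith [ht.2], by linarith [ht.1], by ring, ?_⟩
    rw [smul_neg, ← sub_eq_neg_add, ← sub_smul]
    congr 1
    ring

theorem mem_Zt {n m : ℕ} (v : Fin m → E n) (z : E n) :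
    z ∈ Zt v ↔ ∃ t : Fin m → ℝ, (∀ i, |t i| ≤ 1) ∧ z = ∑ i, t i • v i := by
  rw [Zt, Set.mem_fintype_sum]
  constructor
  · rintro ⟨g, hg, rfl⟩
    have h : ∀ i, ∃ t : ℝ, |t| ≤ 1 ∧ g i = t • v i := fun i => (mem_segment_neg _ _).1 (hg i)
    choose t ht hgt using h
    exact ⟨t, ht, Finset.sum_congr rfl fun i _ => hgt i⟩
  · rintro ⟨t, ht, rfl⟩
    exact ⟨fun i => t i • v i, fun i => (mem_segment_neg _ _).2 ⟨t i, ht i, rfl⟩, rfl⟩

theorem Zt_eq_image {n m : ℕ} (v : Fin m → E n) :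
    Zt v = (fun t : Fin m → ℝ => ∑ i, t i • v i) '' (Set.Icc (fun _ => -1) (fun _ => 1)) := by
  ext z
  rw [mem_Zt]
  constructor
  · rintro ⟨t, ht, rfl⟩
    exact ⟨t, ⟨fun i => (abs_le.1 (ht i)).1, fun i => (abs_le.1 (ht i)).2⟩, rfl⟩
  · rintro ⟨t, ht, rfl⟩
    exact ⟨t, fun i => abs_le.2 ⟨ht.1 i, ht.2 i⟩, rfl⟩

theorem isCompact_Zt {n m : ℕ} (v : Fin m → E n) : IsCompact (Zt v) := by
  rw [Zt_eq_image]
  exact isCompact_Icc.image (by fun_prop)

theorem convex_Zt {n m : ℕ} (v : Fin m → E n) : Convex ℝ (Zt v) := by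
  intro x hx y hy a b ha hb hab
  rw [mem_Zt] at hx hy ⊢
  obtain ⟨s, hs, rfl⟩ := hx
  obtain ⟨t, ht, rfl⟩ := hy
  refine ⟨fun i => a * s i + b * t i, fun i => ?_, ?_⟩
  · calc |a * s i + b * t i| ≤ |a * s i| + |b * t i| := abs_add_le _ _
      _ = a * |s i| + b * |t i| := by rw [abs_mul, abs_mul, abs_of_nonneg ha, abs_of_nonneg hb]
      _ ≤ a * 1 + b * 1 := by
          have h1 := hs i
          have h2 := ht i
          gcongr
      _ = 1 := by linarith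
  · rw [Finset.smul_sum, Finset.smul_sum, ← Finset.sum_add_distrib]
    refine Finset.sum_congr rfl fun i _ => ?_
    rw [add_smul, mul_smul, mul_smul]

theorem nonempty_Zt {n m : ℕ} (v : Fin m → E n) : (Zt v).Nonempty :=
  ⟨0, (mem_Zt v 0).2 ⟨fun _ => 0, by simp, by simp⟩⟩

theorem neg_mem_Zt {n m : ℕ} {v : Fin m → E n} {z : E n} (hz : z ∈ Zt v) : -z ∈ Zt v := by
  rw [mem_Zt] at hz ⊢
  obtain ⟨t, ht, rfl⟩ := hz
  exact ⟨fun i => -t i, fun i => by rw [abs_neg]; exact ht i, by simp [Finset.sum_neg_distrib]⟩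

theorem inner_le_zn {n m : ℕ} {v : Fin m → E n} {z : E n} (hz : z ∈ Zt v) (x : E n) :
    ⟪z, x⟫ ≤ zn v x := by
  rw [mem_Zt] at hz
  obtain ⟨t, ht, rfl⟩ := hz
  rw [sum_inner, zn]
  refine Finset.sum_le_sum fun i _ => ?_
  rw [real_inner_smul_left]
  calc t i * ⟪v i, x⟫ ≤ |t i * ⟪v i, x⟫| := le_abs_self _
    _ = |t i| * |⟪v i, x⟫| := abs_mul _ _
    _ ≤ 1 * |⟪v i, x⟫| := by gcongr; exact ht i
    _ = _ := one_mul _

theorem exists_inner_eq_zn {n m : ℕ} (v : Fin m → E n) (x : E n) :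
    ∃ z ∈ Zt v, ⟪z, x⟫ = zn v x := by
  classical
  refine ⟨∑ i, (if 0 ≤ ⟪v i, x⟫ then (1 : ℝ) else -1) • v i, (mem_Zt _ _).2
    ⟨fun i => if 0 ≤ ⟪v i, x⟫ then (1 : ℝ) else -1, fun i => ?_, rfl⟩, ?_⟩
  · show |if 0 ≤ ⟪v i, x⟫ then (1 : ℝ) else -1| ≤ 1
    split_ifs <;> simp
  · rw [sum_inner, zn]
    refine Finset.sum_congr rfl fun i _ => ?_
    rw [real_inner_smul_left]
    split_ifs with h
    · rw [one_mul, abs_of_nonneg h]
    · rw [neg_one_mul, abs_of_neg (not_le.1 h)]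

theorem zn_smul {n m : ℕ} {s : ℝ} (hs : 0 ≤ s) (v : Fin m → E n) (x : E n) :
    zn (fun i => s • v i) x = s * zn v x := by
  rw [zn, zn, Finset.mul_sum]
  refine Finset.sum_congr rfl fun i _ => ?_
  rw [real_inner_smul_left, abs_mul, abs_of_nonneg hs]

/-- Hahn-Banach in the form used here. -/
theorem subset_of_inner_le {n : ℕ} {A B : Set (E n)} (hB : Convex ℝ B) (hBc : IsClosed B)
    (h : ∀ x : E n, ∀ a ∈ A, ∃ b ∈ B, ⟪a, x⟫ ≤ ⟪b, x⟫) : A ⊆ B := by
  intro a ha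
  by_contra hcon
  obtain ⟨f, u, h1, h2⟩ := geometric_hahn_banach_closed_point hB hBc hcon
  set x := (InnerProductSpace.toDual ℝ (E n)).symm f with hx
  have hf : ∀ y, f y = ⟪y, x⟫ := by
    intro y
    rw [real_inner_comm, hx, InnerProductSpace.toDual_symm_apply]
  obtain ⟨b, hb, hab⟩ := h x a ha
  have h3 := h1 b hb
  rw [hf] at h2 h3
  linarith

/-- A Hausdorff limit of zonotopes is convex and symmetric. -/
theorem convex_of_limit {n : ℕ} {K : Set (E n)} (hK : IsCompact K) (hne : K.Nonempty)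
    (hlim : ∀ δ : ℝ, 0 < δ → ∃ m : ℕ, ∃ v : Fin m → E n,
      Metric.hausdorffDist K (Zt v) < δ) : Convex ℝ K := by
  intro x hx y hy a b ha hb hab
  rw [← hK.isClosed.closure_eq, Metric.mem_closure_iff]
  intro ε hε
  obtain ⟨m, v, hv⟩ := hlim (ε / 2) (by linarith)
  have fin : Metric.hausdorffEDist K (Zt v) ≠ ⊤ :=
    Metric.hausdorffEDist_ne_top_of_nonempty_of_bounded hne (nonempty_Zt v) hK.isBounded
      (isCompact_Zt v).isBounded
  obtain ⟨x', hx', hxx⟩ := Metric.exists_dist_lt_of_hausdorffDist_lt hx hv fin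
  obtain ⟨y', hy', hyy⟩ := Metric.exists_dist_lt_of_hausdorffDist_lt hy hv fin
  have hz : a • x' + b • y' ∈ Zt v := convex_Zt v hx' hy' ha hb hab
  obtain ⟨z, hzK, hzz⟩ := Metric.exists_dist_lt_of_hausdorffDist_lt' hz hv fin
  refine ⟨z, hzK, ?_⟩
  have h1 : dist (a • x + b • y) (a • x' + b • y') ≤ ε / 2 := by
    calc dist (a • x + b • y) (a • x' + b • y')
        ≤ dist (a • x) (a • x') + dist (b • y) (b • y') := dist_add_add_le _ _ _ _
      _ = a * dist x x' + b * dist y y' := by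
          rw [dist_smul₀, dist_smul₀, Real.norm_of_nonneg ha, Real.norm_of_nonneg hb]
      _ ≤ a * (ε / 2) + b * (ε / 2) := by gcongr
      _ = ε / 2 := by rw [← add_mul, hab, one_mul]
  calc dist (a • x + b • y) z
      ≤ dist (a • x + b • y) (a • x' + b • y') + dist (a • x' + b • y') z := dist_triangle _ _ _
    _ < ε / 2 + ε / 2 := by rw [dist_comm _ z]; linarith
    _ = ε := by ring

theorem neg_mem_of_limit {n : ℕ} {K : Set (E n)} (hK : IsCompact K) (hne : K.Nonempty)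
    (hlim : ∀ δ : ℝ, 0 < δ → ∃ m : ℕ, ∃ v : Fin m → E n,
      Metric.hausdorffDist K (Zt v) < δ) {x : E n} (hx : x ∈ K) : -x ∈ K := by
  rw [← hK.isClosed.closure_eq, Metric.mem_closure_iff]
  intro ε hε
  obtain ⟨m, v, hv⟩ := hlim (ε / 2) (by linarith)
  have fin : Metric.hausdorffEDist K (Zt v) ≠ ⊤ :=
    Metric.hausdorffEDist_ne_top_of_nonempty_of_bounded hne (nonempty_Zt v) hK.isBounded
      (isCompact_Zt v).isBounded
  obtain ⟨x', hx', hxx⟩ := Metric.exists_dist_lt_of_hausdorffDist_lt hx hv fin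
  obtain ⟨z, hzK, hzz⟩ := Metric.exists_dist_lt_of_hausdorffDist_lt' (neg_mem_Zt hx') hv fin
  refine ⟨z, hzK, ?_⟩
  calc dist (-x) z ≤ dist (-x) (-x') + dist (-x') z := dist_triangle _ _ _
    _ < ε / 2 + ε / 2 := by rw [dist_neg_neg, dist_comm _ z]; linarith
    _ = ε := by ring

/-- A symmetric convex set with interior contains a ball around the origin. -/
theorem exists_ball {n : ℕ} {K : Set (E n)} (hconv : Convex ℝ K) (hsymm : ∀ x ∈ K, -x ∈ K)
    (hint : (interior K).Nonempty) : ∃ r : ℝ, 0 < r ∧ Metric.closedBall (0 : E n) r ⊆ K := by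
  obtain ⟨p, hp⟩ := hint
  rw [mem_interior_iff_mem_nhds, Metric.mem_nhds_iff] at hp
  obtain ⟨ρ, hρ, hb⟩ := hp
  refine ⟨ρ / 2, by linarith, ?_⟩
  intro x hx
  rw [mem_closedBall_zero_iff] at hx
  have h1 : p + x ∈ K := hb (by
    rw [Metric.mem_ball, dist_eq_norm, add_sub_cancel_left]
    linarith)
  have h2 : p - x ∈ K := hb (by
    rw [Metric.mem_ball, dist_eq_norm, sub_sub_cancel_left, norm_neg]
    linarith)
  have h3 : -(p - x) ∈ K := hsymm _ h2
  have h4 := hconv h1 h3 (by norm_num : (0 : ℝ) ≤ 1 / 2) (by norm_num : (0 : ℝ) ≤ 1 / 2)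
    (by norm_num)
  have h5 : (1 / 2 : ℝ) • (p + x) + (1 / 2 : ℝ) • -(p - x) = x := by
    module
  rwa [h5] at h4

/-- Comparison of the support functions. -/
theorem support_compare {n : ℕ} {K : Set (E n)} (hK : IsCompact K) (hne : K.Nonempty) {r : ℝ}
    (hr : 0 < r) (hball : Metric.closedBall (0 : E n) r ⊆ K) {e : ℝ} (he : 0 < e) {m : ℕ}
    {v : Fin m → E n} (hv : Metric.hausdorffDist K (Zt v) < e * r) (x : E n) :
    ∃ y ∈ K, (∀ a ∈ K, ⟪a, x⟫ ≤ ⟪y, x⟫) ∧ 0 ≤ ⟪y, x⟫ ∧ (1 - e) * ⟪y, x⟫ ≤ zn v x ∧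
      zn v x ≤ (1 + e) * ⟪y, x⟫ := by
  have fin : Metric.hausdorffEDist K (Zt v) ≠ ⊤ :=
    Metric.hausdorffEDist_ne_top_of_nonempty_of_bounded hne (nonempty_Zt v) hK.isBounded
      (isCompact_Zt v).isBounded
  obtain ⟨y, hy, hmax⟩ := hK.exists_isMaxOn hne
    (Continuous.continuousOn (f := fun a : E n => ⟪a, x⟫) (by fun_prop))
  have hmax' : ∀ a ∈ K, ⟪a, x⟫ ≤ ⟪y, x⟫ := fun a ha => hmax ha
  have hrx : r * ‖x‖ ≤ ⟪y, x⟫ := by
    by_cases hx : x = 0
    · subst hx; simp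
    · have hxn : 0 < ‖x‖ := norm_pos_iff.2 hx
      have h1 : (r / ‖x‖) • x ∈ K := hball (by
        rw [mem_closedBall_zero_iff, norm_smul, Real.norm_of_nonneg (by positivity),
          div_mul_cancel₀ _ hxn.ne'])
      have h2 := hmax' _ h1
      rw [real_inner_smul_left, real_inner_self_eq_norm_sq] at h2
      have h3 : r / ‖x‖ * ‖x‖ ^ 2 = r * ‖x‖ := by field_simp
      linarith
  have h0 : 0 ≤ ⟪y, x⟫ := le_trans (by positivity) hrx
  refine ⟨y, hy, hmax', h0, ?_, ?_⟩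
  · obtain ⟨z, hz, hyz⟩ := Metric.exists_dist_lt_of_hausdorffDist_lt hy hv fin
    have h1 : ⟪y, x⟫ - ⟪z, x⟫ ≤ e * r * ‖x‖ := by
      rw [← inner_sub_left]
      calc ⟪y - z, x⟫ ≤ ‖y - z‖ * ‖x‖ := real_inner_le_norm _ _
        _ ≤ e * r * ‖x‖ := by
            rw [← dist_eq_norm]
            gcongr
    have h2 := inner_le_zn hz x
    have h3 : e * (r * ‖x‖) ≤ e * ⟪y, x⟫ := by gcongr
    nlinarith
  · obtain ⟨z, hz, hzx⟩ := exists_inner_eq_zn v x
    obtain ⟨a, ha, haz⟩ := Metric.exists_dist_lt_of_hausdorffDist_lt' hz hv fin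
    have h1 : ⟪z, x⟫ - ⟪a, x⟫ ≤ e * r * ‖x‖ := by
      rw [← inner_sub_left]
      calc ⟪z - a, x⟫ ≤ ‖z - a‖ * ‖x‖ := real_inner_le_norm _ _
        _ ≤ e * r * ‖x‖ := by
            rw [← dist_eq_norm, dist_comm]
            gcongr
    have h2 := hmax' a ha
    have h3 : e * (r * ‖x‖) ≤ e * ⟪y, x⟫ := by gcongr
    nlinarith

theorem main {ε : ℝ} (hε : 0 < ε) (SP : SparseStatement) : ∃ C : ℝ, ∀ n : ℕ,
    ∀ K : Set (EuclideanSpace ℝ (Fin n)), IsCompact K → (interior K).Nonempty →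
      (∀ δ : ℝ, 0 < δ → ∃ m : ℕ, ∃ v : Fin m → EuclideanSpace ℝ (Fin n),
          Metric.hausdorffDist K (∑ i, segment ℝ (-v i) (v i)) < δ) →
      ∃ m : ℕ, (m : ℝ) ≤ C * n ∧
          ∃ v : Fin m → EuclideanSpace ℝ (Fin n),
          ∃ T : EuclideanSpace ℝ (Fin n) ≃ₗ[ℝ] EuclideanSpace ℝ (Fin n),
            T '' K ⊆ ∑ i, segment ℝ (-v i) (v i) ∧
            ∑ i, segment ℝ (-v i) (v i) ⊆ (1 + ε) • (T '' K) := by
  set e : ℝ := min ε 1 / 8 with he_def
  have he : 0 < e := by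
    have : 0 < min ε 1 := lt_min hε one_pos
    positivity
  have he1 : e ≤ 1 / 8 := by
    have : min ε 1 ≤ 1 := min_le_right _ _
    linarith
  have he2 : 8 * e ≤ ε := by
    have : min ε 1 ≤ ε := min_le_left _ _
    linarith
  obtain ⟨C, hC, hSP⟩ := SP e he
  refine ⟨C, fun n K hK hint hlim => ?_⟩
  have hne : K.Nonempty := hint.mono interior_subset
  have hconv : Convex ℝ K := convex_of_limit hK hne hlim
  have hsymm : ∀ x ∈ K, -x ∈ K := fun x hx => neg_mem_of_limit hK hne hlim hx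
  obtain ⟨r, hr, hball⟩ := exists_ball hconv hsymm hint
  obtain ⟨N, v, hv⟩ := hlim (e * r) (by positivity)
  obtain ⟨m, w, hm, hw⟩ := hSP n N v
  set s : ℝ := 1 / ((1 - e) * (1 - e)) with hs_def
  have h1e : 0 < 1 - e := by linarith
  have hs : 0 < s := by positivity
  refine ⟨m, hm, fun i => s • w i, LinearEquiv.refl ℝ _, ?_, ?_⟩
  · have hid : ((LinearEquiv.refl ℝ (EuclideanSpace ℝ (Fin n))) : E n → E n) '' K = K := by
      ext x; simp
    rw [hid]
    refine subset_of_inner_le (B := Zt fun i => s • w i) (convex_Zt _) (isCompact_Zt _).isClosed ?_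
    intro x a ha
    obtain ⟨z, hz, hzx⟩ := exists_inner_eq_zn (fun i => s • w i) x
    refine ⟨z, hz, ?_⟩
    obtain ⟨y, hy, hmax, h0, hlow, -⟩ := support_compare hK hne hr hball he hv x
    rw [hzx, zn_smul hs.le]
    refine (hmax a ha).trans ?_
    have h1 := (hw x).1
    have h2 : (1 - e) * ((1 - e) * ⟪y, x⟫) ≤ zn w x :=
      le_trans (mul_le_mul_of_nonneg_left hlow h1e.le) h1
    have h3 : ⟪y, x⟫ = s * ((1 - e) * ((1 - e) * ⟪y, x⟫)) := by
      rw [hs_def]; field_simp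
    rw [h3]
    gcongr
  · have hid : ((LinearEquiv.refl ℝ (EuclideanSpace ℝ (Fin n))) : E n → E n) '' K = K := by
      ext x; simp
    rw [hid]
    have h1ε : (0 : ℝ) < 1 + ε := by linarith
    refine subset_of_inner_le (A := Zt fun i => s • w i) (hconv.smul (1 + ε)) ?_ ?_
    · exact (hK.smul (1 + ε)).isClosed
    intro x a ha
    obtain ⟨y, hy, hmax, h0, -, hup⟩ := support_compare hK hne hr hball he hv x
    refine ⟨(1 + ε) • y, Set.smul_mem_smul_set hy, ?_⟩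
    have h1 := inner_le_zn ha x
    rw [zn_smul hs.le] at h1
    refine h1.trans ?_
    rw [real_inner_smul_left]
    have h2 : zn w x ≤ (1 + e) * ((1 + e) * ⟪y, x⟫) :=
      le_trans (hw x).2 (mul_le_mul_of_nonneg_left hup (by linarith))
    have h3 : s * ((1 + e) * (1 + e)) ≤ 1 + ε := by
      rw [hs_def, one_div, inv_mul_le_iff₀ (by positivity)]
      nlinarith [mul_pos he he]
    calc s * zn w x ≤ s * ((1 + e) * ((1 + e) * ⟪y, x⟫)) := by gcongr
      _ = s * ((1 + e) * (1 + e)) * ⟪y, x⟫ := by ring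
      _ ≤ (1 + ε) * ⟪y, x⟫ := by gcongr

/-- Module Z. -/
theorem zonoid (SP : SparseStatement) : ZonoidStatement := by
  rintro ⟨ε, hε, h⟩
  obtain ⟨C, hC⟩ := main hε SP
  obtain ⟨n, K, hK, hint, hlim, hno⟩ := h C
  exact hno (hC n K hK hint hlim)

end Pool.Agent.Lib.MP_2c1b2b_gt.H33
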